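import Pool.Agent.Helper44.FB.Main

/-!
MP_5524a6_nt, partial answer to Q1: for every `κ > 5/4` there are polynomially many primes `p ≤ x`
with a base `a < (log p) ^ κ` such that `p ^ 2` does not divide `a ^ p - a`.
-/

set_option autoImplicit false

namespace Pool.Agent.Results.MP_5524a6_nt.FiveQuarters

/-- For every `κ > 5 / 4` there are `δ > 0` and `x0` such that for all `x ≥ x0` at least `x ^ δ`
primes `p ≤ x` have a positive integer `a < (log p) ^ κ` with `p ^ 2 ∤ a ^ p - a`. -/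
theorem result : ∀ κ : ℝ, 5 / 4 < κ → ∃ δ : ℝ, 0 < δ ∧ ∃ x0 : ℕ, ∀ x : ℕ, x0 ≤ x →
    (x : ℝ) ^ δ ≤ (({p : ℕ | p ≤ x ∧ p.Prime ∧
      ∃ a : ℕ, 0 < a ∧ (a : ℝ) < (Real.log p) ^ κ ∧ ¬ p ^ 2 ∣ a ^ p - a}.ncard : ℕ) : ℝ) :=
  fun _ hκ => Pool.Agent.Helper44.FB.main hκ

end Pool.Agent.Results.MP_5524a6_nt.FiveQuarters
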